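import Pool.Agent.L0h32.UX.Stm

/-!
# Project UX, module BCK: if the next state is good then the present one is good
-/

set_option autoImplicit false
set_option linter.all false

namespace Pool.Agent.L0h2.UX

open Relation
open Pool.Agent.L0h32.UX
open Pool.Agent.H630R2.LA (LimAut Sym Cfg Step init initTape WS lrel bitS ix nr Ann keep)

section generic

variable {P : Type} {S : P → Prop} {Eg : ℕ → P → P → Prop} {wt : ℕ → P → P → ℕ}

lemma gpw_comp {j l : ℕ} {p q : P} {r : ℕ} (hw : GWp Eg wt j p l q r) :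
    ∀ v, GPw S Eg wt j p v → GPw S Eg wt l q (v + r) := by
  induction hw with
  | refl j p => exact fun v hv => hv
  | cons j l p p' q r he hw ih =>
    intro v hv
    have h1 := ih (v + wt j p p') ⟨p, v, hv, he, rfl⟩
    have h2 : v + (wt j p p' + r) = v + wt j p p' + r := by omega
    rw [h2]
    exact h1

lemma gdm_le {j v : ℕ} {p : P} (hv : GPw S Eg wt j p v) : GDm S Eg wt j p ≤ v :=
  Nat.sInf_le hv

lemma gdm_mem {j v : ℕ} {p : P} (hv : GPw S Eg wt j p v) : GPw S Eg wt j p (GDm S Eg wt j p) :=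
  Nat.sInf_mem (s := {v | GPw S Eg wt j p v}) ⟨v, hv⟩

/-- one step back on a path of minimal weight -/
lemma on_back {j l v : ℕ} {p p' z : P} (hv : GPw S Eg wt j p v) (he : Eg j p p')
    (hon : GOn S Eg wt (j + 1) p' l z) (hd : v + wt j p p' = GDm S Eg wt (j + 1) p') :
    GOn S Eg wt j p l z ∧ v = GDm S Eg wt j p := by
  obtain ⟨v1, r, h1, h2, h3⟩ := hon
  have h4 : GDm S Eg wt (j + 1) p' ≤ v1 := gdm_le h1
  have h5 : GWp Eg wt j p l z (wt j p p' + r) := GWp.cons j l p p' z r he h2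
  have h6 : GDm S Eg wt l z ≤ v + (wt j p p' + r) := gdm_le (gpw_comp h5 v hv)
  refine ⟨⟨v, wt j p p' + r, hv, h5, by omega⟩, ?_⟩
  have h7 : GDm S Eg wt j p ≤ v := gdm_le hv
  have h8 : GDm S Eg wt (j + 1) p' ≤ GDm S Eg wt j p + wt j p p' :=
    gdm_le ⟨p, _, gdm_mem hv, he, rfl⟩
  omega

lemma on_self {l v : ℕ} {z : P} (hv : GPw S Eg wt l z v) (hd : v = GDm S Eg wt l z) :
    GOn S Eg wt l z l z := ⟨v, 0, hv, GWp.refl l z, by omega⟩

end generic

variable {A : Type} {h : ℕ} {rel : A → Fin (2 ^ h) → Fin (2 ^ h) → Bool} {p0 : Fin (2 ^ h)}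
  {facc : Fin (2 ^ h) → Bool} {K : ℕ} {W : ℕ → ℕ → Fin (2 ^ h) → Fin (2 ^ h) → ℕ} {w : List A} {t : ℕ}

lemma ix_val {i : ℕ} (hi : i < 2 ^ h) : (ix h i).val = i := Nat.mod_eq_of_lt hi

lemma nr_of_pw {β i : ℕ} : ∀ {j : ℕ} {p : Fin (2 ^ h)} {v : ℕ}, Pw h rel p0 W w β i j p v →
    nr h rel p0 w (β + j) p
  | 0, p, v, hp => hp.1
  | j + 1, q, v, hq => by
    obtain ⟨p, u, h1, ⟨a, h2, h3⟩, -⟩ := hq
    exact ⟨p, nr_of_pw h1, a, h2, h3⟩

open Classical in
/-- the reachable states `< y` of the layer `l` -/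
noncomputable def FF (h : ℕ) (rel : A → Fin (2 ^ h) → Fin (2 ^ h) → Bool) (p0 : Fin (2 ^ h))
    (w : List A) (β l y : ℕ) : Finset (Fin (2 ^ h)) :=
  Finset.univ.filter (fun q : Fin (2 ^ h) => q.val < y ∧ nr h rel p0 w (β + l) q)

lemma mem_FF {β l y : ℕ} {q : Fin (2 ^ h)} :
    q ∈ FF h rel p0 w β l y ↔ q.val < y ∧ nr h rel p0 w (β + l) q := by
  unfold FF
  simp only [Finset.mem_filter, Finset.mem_univ, true_and]

lemma cnL_eq (β l y : ℕ) : cnL h rel p0 w β l y = (FF h rel p0 w β l y).card := rfl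

lemma smL_eq (β i l y : ℕ) :
    smL h rel p0 W w β i l y = ∑ q ∈ FF h rel p0 w β l y, Dm h rel p0 W w β i l q := rfl

lemma FF_mono (β l y : ℕ) : FF h rel p0 w β l y ⊆ FF h rel p0 w β l (y + 1) := by
  intro q hq
  rw [mem_FF] at hq ⊢
  exact ⟨by omega, hq.2⟩

lemma FF_zero (β l : ℕ) : FF h rel p0 w β l 0 = ∅ := by
  ext q
  rw [mem_FF]
  simp

lemma FF_succ {β l z : ℕ} (hz : z < 2 ^ h) (hr : nr h rel p0 w (β + l) (ix h z)) :
    ix h z ∉ FF h rel p0 w β l z ∧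
    FF h rel p0 w β l (z + 1) = insert (ix h z) (FF h rel p0 w β l z) := by
  have h1 : (ix h z).val = z := ix_val hz
  constructor
  · intro hq
    rw [mem_FF] at hq
    omega
  · ext q
    rw [Finset.mem_insert, mem_FF, mem_FF]
    constructor
    · rintro ⟨h2, h3⟩
      by_cases h4 : q = ix h z
      · exact Or.inl h4
      · right
        refine ⟨?_, h3⟩
        have h5 : q.val ≠ z := fun h5 => h4 (Fin.ext (by rw [h5, h1]))
        omega
    · rintro (h2 | ⟨h2, h3⟩)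
      · rw [h2]
        exact ⟨by omega, hr⟩
      · exact ⟨by omega, h3⟩

/-- what is known of the sources found so far -/
lemma key {β i l z d e : ℕ} {Z : Finset (Fin (2 ^ h))} {g : Fin (2 ^ h) → ℕ}
    (hZ : ∀ q ∈ Z, q.val < z ∧ Pw h rel p0 W w β i l q (g q)) (hd : d = Z.card)
    (he : e = ∑ q ∈ Z, g q) :
    d ≤ cnL h rel p0 w β l z ∧ (d = cnL h rel p0 w β l z → smL h rel p0 W w β i l z ≤ e) := by
  have h1 : Z ⊆ FF h rel p0 w β l z := by
    intro q hq
    rw [mem_FF]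
    exact ⟨(hZ q hq).1, nr_of_pw (hZ q hq).2⟩
  rw [cnL_eq, smL_eq, hd, he]
  refine ⟨Finset.card_le_card h1, fun h2 => ?_⟩
  have h3 : Z = FF h rel p0 w β l z := Finset.eq_of_subset_of_card_le h1 h2.ge
  rw [← h3]
  exact Finset.sum_le_sum fun q hq => gdm_le (hZ q hq).2

lemma key_mok {m : Mem} (hm : MOK h rel p0 facc K W w t m) :
    m.d ≤ cnL h rel p0 w (bt h t m) m.l m.z ∧ (m.d = cnL h rel p0 w (bt h t m) m.l m.z →
      smL h rel p0 W w (bt h t m) m.i m.l m.z ≤ m.e) := by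
  obtain ⟨-, -, -, -, -, -, -, -, -, -, -, -, -, -, -, ⟨Z, g, hZ, hd, he, -⟩, -⟩ := hm
  exact key hZ hd he

/-- nothing has been found at the beginning -/
lemma gm_zero {m : Mem} (hm : MOK h rel p0 facc K W w t m) (hz : m.z = 0) :
    GM h rel p0 W w t m := by
  obtain ⟨-, -, -, -, -, -, -, -, -, -, -, -, -, -, -, ⟨Z, g, hZ, hd, he, -⟩, -⟩ := hm
  have h1 : Z = ∅ := by
    rw [Finset.eq_empty_iff_forall_notMem]
    intro q hq
    have := (hZ q hq).1
    omega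
  unfold GM
  rw [cnL_eq, smL_eq, hz, FF_zero, hd, he, h1]
  simp

lemma gm_full {m : Mem} (hm : MOK h rel p0 facc K W w t m) (hz : m.z = 2 ^ h) (hd : m.d = m.c)
    (he : m.e = m.s) : GM h rel p0 W w t m := by
  obtain ⟨-, -, -, -, -, hc, hs, -⟩ := hm
  unfold GM
  rw [hd, he, hz]
  exact ⟨hc, hs⟩

lemma gm_no {m : Mem} (hm : MOK h rel p0 facc K W w t m)
    (hg : GM h rel p0 W w t { m with z := m.z + 1 }) : GM h rel p0 W w t m := by
  have h1 := (key_mok hm).1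
  obtain ⟨h2, h3⟩ := hg
  have h2' : m.d = cnL h rel p0 w (bt h t m) m.l (m.z + 1) := h2
  have h3' : m.e = smL h rel p0 W w (bt h t m) m.i m.l (m.z + 1) := h3
  rw [cnL_eq] at h1 h2'
  rw [smL_eq] at h3'
  have h4 : FF h rel p0 w (bt h t m) m.l m.z = FF h rel p0 w (bt h t m) m.l (m.z + 1) :=
    Finset.eq_of_subset_of_card_le (FF_mono _ _ _) (by omega)
  unfold GM
  rw [cnL_eq, smL_eq, h4]
  exact ⟨h2', h3'⟩

/-- a source has been found -/
lemma gm_yes {m : Mem} {v : ℕ} {σ : Sym (WS A)} (hm : MOK h rel p0 facc K W w t m)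
    (hz : m.z < 2 ^ h) (hv : Pw h rel p0 W w (bt h t m) m.i m.l (ix h m.z) v)
    (hg : GM h rel p0 W w t (yes h rel W m v σ)) :
    GM h rel p0 W w t m ∧ OnM h rel p0 W w (bt h t m) m.i m.l (ix h m.z) m.l (ix h m.z) ∧
      v = Dm h rel p0 W w (bt h t m) m.i m.l (ix h m.z) := by
  obtain ⟨h1, h1'⟩ := key_mok hm
  obtain ⟨h2, h3⟩ := hg
  have h2' : m.d + 1 = cnL h rel p0 w (bt h t m) m.l (m.z + 1) := h2
  have h3' : m.e + v = smL h rel p0 W w (bt h t m) m.i m.l (m.z + 1) := h3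
  obtain ⟨h4, h5⟩ := FF_succ hz (nr_of_pw hv)
  have h6 : Dm h rel p0 W w (bt h t m) m.i m.l (ix h m.z) ≤ v := gdm_le hv
  have h7 : cnL h rel p0 w (bt h t m) m.l (m.z + 1) = cnL h rel p0 w (bt h t m) m.l m.z + 1 := by
    rw [cnL_eq, cnL_eq, h5, Finset.card_insert_of_notMem h4]
  have h8 : smL h rel p0 W w (bt h t m) m.i m.l (m.z + 1) =
      Dm h rel p0 W w (bt h t m) m.i m.l (ix h m.z) + smL h rel p0 W w (bt h t m) m.i m.l m.z := by
    rw [smL_eq, smL_eq, h5, Finset.sum_insert h4]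
  have h9 : m.d = cnL h rel p0 w (bt h t m) m.l m.z := by omega
  have h10 := h1' h9
  have h11 : v = Dm h rel p0 W w (bt h t m) m.i m.l (ix h m.z) := by omega
  exact ⟨⟨h9, by omega⟩, on_self hv h11, h11⟩

lemma EE_le {m : Mem} (hx : WOK h rel p0 w t m.x) : EE h m.x m.fin ≤ t + 1 := by
  obtain ⟨h1, h2, -⟩ := hx
  have h0 := Nat.two_pow_pos h
  have h3 : t / 2 ^ h * 2 ^ h + t % 2 ^ h = t := by
    rw [Nat.mul_comm]
    exact Nat.div_add_mod t (2 ^ h)
  have h4 := Nat.mod_lt t h0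
  have h5 : m.x.first ≠ true → 2 ^ h + t % 2 ^ h ≤ t := by
    intro h5
    rw [h1] at h5
    have h6 : ¬ t < 2 ^ h := fun h6 => h5 (decide_eq_true h6)
    have h7 : 1 ≤ t / 2 ^ h := (Nat.one_le_div_iff h0).2 (by omega)
    have h8 : 1 * 2 ^ h ≤ t / 2 ^ h * 2 ^ h := Nat.mul_le_mul_right _ h7
    omega
  have h6 : t % 2 ^ h ≤ t := Nat.mod_le _ _
  unfold EE
  rw [h2]
  split_ifs with g1 g2 g3 g4
  · omega
  · have := h5 g2
    omega
  · omega
  · have := h5 g4
    omega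
  · omega

lemma LL_le {m : Mem} : LL h m.x m.fin ≤ EE h m.x m.fin := by
  unfold LL EE
  split_ifs with g1 g2 g3 g4 g5 <;> first | omega | (simp_all; omega) | simp_all

/-- the letter after the layer `j` -/
lemma ed_of {m : Mem} {τ : ℕ → Sym (WS A)} (ht : t ≤ w.length)
    (hA : Ann h rel p0 w τ (min (t + 1) w.length)) (hm : MOK h rel p0 facc K W w t m)
    {j : ℕ} (hj : j < m.l) (hl : m.l < Ly h m) {p p' : Fin (2 ^ h)}
    (hr : lrel h rel (τ (bt h t m + (j + 1))) p p' = true) :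
    Ed h rel w (bt h t m) j p p' := by
  have h1 := EE_le hm.1
  have h2 : Ly h m ≤ EE h m.x m.fin := LL_le
  have h3 : bt h t m + j < t := by
    unfold bt
    omega
  obtain ⟨a, b, h4, h5, -⟩ := hA.2 (bt h t m + j) (by omega)
  have h6 : bt h t m + (j + 1) = bt h t m + j + 1 := by omega
  rw [h6, h5] at hr
  exact ⟨a, h4, hr⟩

theorem t_BCK : S_BCK := by
  intro A h rel p0 facc K W w t τ ht hAnn s s' x x' b d hs hs' htr hg
  generalize hσ : τ x = σ at htr
  cases htr with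
  | wrL x a => exact hs.elim
  | wrR x => exact hs.elim
  | hop m m' σ hh =>
    have hm : MOK h rel p0 facc K W w t m := hs.1
    have hg' : GM h rel p0 W w t m' := hg
    show GM h rel p0 W w t m
    cases hh with
    | no hl hy hz => exact gm_no hm hg'
    | nexty hl hy hz hd he hmul => exact gm_full hm hz hd he
    | bad hl hy hz hd he hmul hi => exact gm_full hm hz hd he
    | layer hl hy =>
      refine gm_zero hm ?_
      obtain ⟨-, -, -, -, -, -, -, -, -, -, -, -, -, -, hz, -⟩ := hm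
      exact hz (Or.inr hy)
  | back m σ => exact hg
  | ask m σ hl hy hz => exact hg.1
  | aL m i σ =>
    obtain ⟨h1, p, h2, h3, h4⟩ := hg
    exact ⟨h1, p, h2, fun h5 => by omega, fun h5 => by have := h4 h5; omega⟩
  | aF m σ hf =>
    obtain ⟨h1, h2⟩ := hg
    refine ⟨h1, p0, h2, fun _ => le_refl _, fun h5 => ?_⟩
    rw [hf] at h5
    exact absurd h5 (by decide)
  | aC m i σ hf hi hb =>
    obtain ⟨h1, h2⟩ := hg
    refine ⟨h1, ix h i, h2, fun _ => by omega, fun h5 => ?_⟩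
    rw [ix_val hi]
    omega
  | bL m p i σ => exact hg
  | b0 m p σ => exact ⟨hg.1, hg.2.1⟩
  | cS m p p' v j σ hj hl =>
    obtain ⟨hm, hL, hy, hz, h1, h2, hx, hv⟩ := hs
    obtain ⟨g1, g2, g3⟩ := hg
    have hv' : Pw h rel p0 W w (bt h t m) m.i j p v := hv
    have g2' : OnM h rel p0 W w (bt h t m) m.i (j + 1) p' m.l (ix h m.z) := g2
    have g3' : v + W m.i j p p' = Dm h rel p0 W w (bt h t m) m.i (j + 1) p' := g3
    rw [← hσ, hx] at hl
    have h3 := ed_of ht hAnn hm hj hL hl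
    obtain ⟨h4, h5⟩ := on_back hv' h3 g2' g3'
    exact ⟨g1, h4, h5⟩
  | cD m p v j σ hj hp hE =>
    obtain ⟨hm, hL, hy, hz, h1, h2, hx, hv⟩ := hs
    have hv' : Pw h rel p0 W w (bt h t m) m.i j p v := hv
    subst hj
    subst hp
    exact gm_yes hm hz hv' hg
  | cR m p v j σ hj hp hE =>
    obtain ⟨hm, hL, hy, hz, h1, h2, hx, hv⟩ := hs
    have hv' : Pw h rel p0 W w (bt h t m) m.i j p v := hv
    subst hj
    subst hp
    exact gm_yes hm hz hv' hg
  | rS m i σ hi => exact hg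
  | rE m i σ hi => exact hg
  | exi m σ hf hl =>
    refine gm_zero hs.1 ?_
    obtain ⟨-, -, -, -, -, -, -, -, -, -, -, -, -, -, hz, -⟩ := hs.1
    exact hz (Or.inl hl)
  | wrt x σ => trivial
  | acc m σ hf hl =>
    refine gm_zero hs.1 ?_
    obtain ⟨-, -, -, -, -, -, -, -, -, -, -, -, -, -, hz, -⟩ := hs.1
    exact hz (Or.inl hl)
  | fin b σ => trivial

end Pool.Agent.L0h2.UX
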